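import Pool.Agent.Lib.QIP.ExitKey
import Pool.Agent.Lib.QIP.Assembly

/-!
# Technical lemmas for the own statement of the quenched invariance principle
-/

set_option autoImplicit false

open MeasureTheory ProbabilityTheory Filter
open scoped ENNReal NNReal Topology BigOperators

namespace Pool.Agent.Lib.H97I

open Pool.Agent.Lib.QIP

universe u v w

/-! ### The configuration of a random graph -/

open Classical in
/-- The configuration of open edges of a random graph. -/
noncomputable def conf {d : ℕ} {Ω : Type u} (G : Ω → SimpleGraph (V d)) (ω : Ω) : Env d :=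
  fun e => decide (e ∈ (G ω).edgeSet)

theorem conf_iff {d : ℕ} {Ω : Type u} (G : Ω → SimpleGraph (V d)) (ω : Ω) (x y : V d) :
    conf G ω s(x, y) = true ↔ (G ω).Adj x y := by
  simp [conf]

theorem conf_iff' {d : ℕ} {Ω : Type u} (G : Ω → SimpleGraph (V d)) (ω : Ω) (x y : V d) :
    (y ≠ x ∧ conf G ω s(x, y) = true) ↔ (G ω).Adj x y := by
  rw [conf_iff]
  exact ⟨fun h => h.2, fun h => ⟨h.ne', h⟩⟩

theorem measurableSet_mem_edge {d : ℕ} {Ω : Type u} [MeasurableSpace Ω]
    {G : Ω → SimpleGraph (V d)} (hm : ∀ x y, MeasurableSet {ω | (G ω).Adj x y})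
    (e : Sym2 (V d)) : MeasurableSet {ω | e ∈ (G ω).edgeSet} := by
  induction e using Sym2.ind with
  | _ x y => exact hm x y

theorem measurable_conf_apply {d : ℕ} {Ω : Type u} [MeasurableSpace Ω]
    {G : Ω → SimpleGraph (V d)} (hm : ∀ x y, MeasurableSet {ω | (G ω).Adj x y})
    (e : Sym2 (V d)) : Measurable (fun ω => conf G ω e) := by
  apply measurable_to_bool
  have h1 : (fun ω => conf G ω e) ⁻¹' {true} = {ω | e ∈ (G ω).edgeSet} := by
    ext ω
    simp [conf]
  rw [h1]
  exact measurableSet_mem_edge hm e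

theorem measurable_conf {d : ℕ} {Ω : Type u} [MeasurableSpace Ω]
    {G : Ω → SimpleGraph (V d)} (hm : ∀ x y, MeasurableSet {ω | (G ω).Adj x y}) :
    Measurable (conf G) :=
  measurable_pi_iff.2 fun e => measurable_conf_apply hm e

theorem iIndepFun_conf {d : ℕ} {Ω : Type u} [MeasurableSpace Ω] {P : Measure Ω}
    {G : Ω → SimpleGraph (V d)}
    (hind : iIndepSet (fun e : Sym2 (V d) => {ω | e ∈ (G ω).edgeSet}) P) :
    iIndepFun (fun (e : Sym2 (V d)) ω => conf G ω e) P := by
  classical
  have h1 : iIndepFun (fun (e : Sym2 (V d)) =>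
      ({ω | e ∈ (G ω).edgeSet} : Set Ω).indicator fun _ => (1 : ℕ)) P :=
    iIndepSet.iIndepFun_indicator hind
  have h2 := h1.comp (fun _ => fun k : ℕ => decide (k = 1)) (fun _ => measurable_of_countable _)
  have h3 : (fun (e : Sym2 (V d)) => (fun k : ℕ => decide (k = 1)) ∘
      (({ω | e ∈ (G ω).edgeSet} : Set Ω).indicator fun _ => (1 : ℕ))) =
      fun (e : Sym2 (V d)) ω => conf G ω e := by
    funext e ω
    simp only [Function.comp, conf, Set.indicator, Set.mem_ofPred_eq]
    by_cases h : e ∈ (G ω).edgeSet <;> simp [h]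
  rw [h3] at h2
  exact h2

theorem law_conf {d : ℕ} (m : Model d) {Ω : Type u} [MeasurableSpace Ω] (P : Measure Ω)
    [IsProbabilityMeasure P] {G : Ω → SimpleGraph (V d)}
    (hm : ∀ x y, MeasurableSet {ω | (G ω).Adj x y})
    (hind : iIndepSet (fun e : Sym2 (V d) => {ω | e ∈ (G ω).edgeSet}) P)
    (hp : ∀ x y : V d, x ≠ y → P {ω | (G ω).Adj x y} = ENNReal.ofReal (m.p (y - x))) :
    P.map (conf G) = m.μ := by
  have h1 := (iIndepFun_iff_map_fun_eq_infinitePi_map (fun e => measurable_conf_apply hm e)).1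
    (iIndepFun_conf hind)
  have h2 : (fun ω (e : Sym2 (V d)) => conf G ω e) = conf G := rfl
  rw [h2] at h1
  rw [h1]
  unfold Model.μ
  congr 1
  funext e
  induction e using Sym2.ind with
  | _ x y =>
    by_cases hxy : x = y
    · subst hxy
      have h3 : (fun ω => conf G ω s(x, x)) = fun _ => false := by
        funext ω
        rw [Bool.eq_false_iff]
        intro hcon
        exact (G ω).irrefl ((conf_iff G ω x x).1 hcon)
      rw [h3, Measure.map_const, measure_univ, one_smul, Model.pe_mk, sub_self, m.zero]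
      unfold bern
      simp
    · rw [Model.pe_mk]
      have h4 : P.map (fun ω => conf G ω s(x, y)) {true} = ENNReal.ofReal (m.p (y - x)) := by
        rw [Measure.map_apply (measurable_conf_apply hm _) (measurableSet_singleton _)]
        have h5 : (fun ω => conf G ω s(x, y)) ⁻¹' {true} = {ω | (G ω).Adj x y} := by
          ext ω
          exact conf_iff G ω x y
        rw [h5]
        exact hp x y hxy
      have hpr : IsProbabilityMeasure (P.map (fun ω => conf G ω s(x, y))) :=
        Measure.isProbabilityMeasure_map (measurable_conf_apply hm _).aemeasurable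
      have h5 : P.map (fun ω => conf G ω s(x, y)) {false} =
          ENNReal.ofReal (1 - m.p (y - x)) := by
        have h6 : ({false} : Set Bool) = {true}ᶜ := by
          ext b
          cases b <;> simp
        rw [h6, prob_compl_eq_one_sub (measurableSet_singleton _), h4,
          ENNReal.ofReal_sub _ (m.nonneg _), ENNReal.ofReal_one]
      apply bool_measure_ext
      · rw [h4, bern_true]
      · rw [h5, bern_false]

theorem good_nbr {d : ℕ} {Ω : Type u} {G : Ω → SimpleGraph (V d)} {ω : Ω}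
    (h : Good (conf G ω)) (x : V d) : ((G ω).neighborSet x).Finite := by
  refine (h.1 x).subset ?_
  intro y hy
  exact (conf_iff' G ω x y).2 hy

open Classical in
theorem c_conf {d : ℕ} {Ω : Type u} {G : Ω → SimpleGraph (V d)} {ω : Ω}
    (h : Good (conf G ω)) (x y : V d) : (cond (conf G ω)).c x y =
    if (G ω).Adj x y then 1 else 0 := by
  rw [cond_c_of_good h]
  by_cases h1 : (G ω).Adj x y
  · rw [if_pos h1, if_pos ((conf_iff' G ω x y).2 h1)]
  · rw [if_neg h1, if_neg]
    intro h2
    exact h1 ((conf_iff' G ω x y).1 h2)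

theorem deg_conf {d : ℕ} {Ω : Type u} {G : Ω → SimpleGraph (V d)} {ω : Ω}
    (h : Good (conf G ω)) (x : V d) : (cond (conf G ω)).deg x =
    ((((G ω).neighborSet x).ncard : ℕ) : ℝ) := by
  classical
  have hfin := good_nbr h x
  unfold Cond.deg
  have h1 : ∀ y, (cond (conf G ω)).c x y =
      Set.indicator ((G ω).neighborSet x) (fun _ => (1 : ℝ)) y := by
    intro y
    rw [c_conf h]
    by_cases h2 : (G ω).Adj x y
    · rw [if_pos h2, Set.indicator_of_mem]
      exact h2
    · rw [if_neg h2, Set.indicator_of_notMem]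
      exact h2
  simp_rw [h1]
  rw [Set.ncard_eq_toFinset_card _ hfin, tsum_eq_sum (s := hfin.toFinset)]
  · rw [Finset.sum_congr rfl (fun y hy => Set.indicator_of_mem (hfin.mem_toFinset.1 hy) _)]
    simp
  · intro y hy
    apply Set.indicator_of_notMem
    intro hcon
    exact hy (hfin.mem_toFinset.2 hcon)

/-! ### The law of a simple random walk on path space -/

/-- The cylinder formula for paths indexed by the natural numbers. -/
theorem cyl_nat {d : ℕ} {C : Cond d} {ν : V d → Measure (ℕ → V d)} (hν : IsWalk C ν)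
    (n : ℕ) (z : ℕ → V d) : ν 0 {w | ∀ i ≤ n, w i = z i} =
      ENNReal.ofReal ((if z 0 = 0 then (1 : ℝ) else 0) *
        ∏ i ∈ Finset.range n, C.c (z i) (z (i + 1)) / C.deg (z i)) := by
  have h := hν.cyl 0 n (fun i => z i)
  have h1 : {w : ℕ → V d | ∀ i : Fin (n + 1), w i = z i} = {w | ∀ i ≤ n, w i = z i} := by
    ext w
    exact ⟨fun hw i hi => hw ⟨i, Nat.lt_succ_of_le hi⟩, fun hw i => hw i (Nat.le_of_lt_succ i.2)⟩
  rw [h1] at h
  rw [h, Finset.prod_range]
  rfl

/-- A process with the transition probabilities of the walk has the law of the walk. -/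
theorem law_walk {d : ℕ} {C : Cond d} {ν : V d → Measure (ℕ → V d)} (hν : IsWalk C ν)
    {Ω₁ : Type v} [MeasurableSpace Ω₁] (Q : Measure Ω₁) [IsProbabilityMeasure Q]
    (Z : ℕ → Ω₁ → V d) (hm : ∀ n, Measurable (Z n)) (h0 : ∀ᵐ ω ∂Q, Z 0 ω = 0)
    (hstep : ∀ (n : ℕ) (z : ℕ → V d),
      Q {ω | ∀ i ≤ n + 1, Z i ω = z i} = Q {ω | ∀ i ≤ n, Z i ω = z i} *
        ENNReal.ofReal (C.c (z n) (z (n + 1)) / C.deg (z n))) :
    Q.map (fun ω k => Z k ω) = ν 0 := by
  have hmZ : Measurable (fun ω k => Z k ω) := measurable_pi_lambda _ hm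
  have hpr : IsProbabilityMeasure (Q.map (fun ω k => Z k ω)) :=
    Measure.isProbabilityMeasure_map hmZ.aemeasurable
  -- cylinder probabilities, for paths indexed by the natural numbers
  have hcyl : ∀ (n : ℕ) (z : ℕ → V d), Q {ω | ∀ i ≤ n, Z i ω = z i} =
      ENNReal.ofReal ((if z 0 = 0 then (1 : ℝ) else 0) *
        ∏ i ∈ Finset.range n, C.c (z i) (z (i + 1)) / C.deg (z i)) := by
    intro n z
    induction n with
    | zero =>
      simp only [Finset.range_zero, Finset.prod_empty, mul_one, Nat.le_zero]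
      have h1 : {ω | ∀ i, i = 0 → Z i ω = z i} = {ω | Z 0 ω = z 0} := by
        ext ω
        exact ⟨fun h => h 0 rfl, fun h i hi => by subst hi; exact h⟩
      rw [h1]
      by_cases hz : z 0 = 0
      · rw [if_pos hz, ENNReal.ofReal_one, hz]
        exact (mem_ae_iff_prob_eq_one ((hm 0) (measurableSet_singleton 0))).1 h0
      · rw [if_neg hz, ENNReal.ofReal_zero]
        refine measure_mono_null ?_ h0
        intro ω hω h2
        exact hz (hω.symm.trans h2)
    | succ n ih =>
      rw [hstep n z, ih, Finset.prod_range_succ, ← mul_assoc]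
      rw [← ENNReal.ofReal_mul]
      refine mul_nonneg ?_ (Finset.prod_nonneg fun i _ => div_nonneg (C.nonneg _ _)
        (C.deg_nonneg _))
      split_ifs <;> norm_num
  refine ext_cyl _ _ fun n z => ?_
  rw [Measure.map_apply hmZ (measurableSet_cylS n z)]
  have h2 := hν.cyl 0 n z
  change ν 0 (cylS n z) = _ at h2
  rw [h2]
  set z' : ℕ → V d := fun i => if h : i < n + 1 then z ⟨i, h⟩ else 0 with hz'
  have h3 : (fun ω k => Z k ω) ⁻¹' cylS n z = {ω | ∀ i ≤ n, Z i ω = z' i} := by
    ext ω
    constructor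
    · intro h i hi
      have h4 := h ⟨i, Nat.lt_succ_of_le hi⟩
      rw [hz']
      simp only [Nat.lt_succ_of_le hi, dif_pos]
      exact h4
    · intro h i
      have h4 := h i (Nat.le_of_lt_succ i.is_lt)
      rw [hz'] at h4
      simp only [i.is_lt, dif_pos] at h4
      exact h4
  rw [h3, hcyl n z']
  congr 1
  have h5 : z' 0 = z 0 := by
    rw [hz']
    simp
  rw [h5]
  congr 1
  rw [Finset.prod_range]
  refine Finset.prod_congr rfl fun i _ => ?_
  have h6 : z' i = z i.castSucc := by
    rw [hz']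
    have : (i : ℕ) < n + 1 := i.is_lt.trans (Nat.lt_succ_self n)
    simp only [this, dif_pos]
    rfl
  have h7 : z' ((i : ℕ) + 1) = z i.succ := by
    rw [hz']
    have : (i : ℕ) + 1 < n + 1 := Nat.succ_lt_succ i.is_lt
    simp only [this, dif_pos]
    rfl
  rw [h6, h7]

/-! ### Brownian motion on an arbitrary probability space -/

/-- The canonical process of the law of a continuous process is a Brownian motion in the sense
of the library. -/
theorem exists_canonical {d : ℕ} {S : Matrix (Fin d) (Fin d) ℝ} {Ω₂ : Type w}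
    [MeasurableSpace Ω₂] (P₂ : Measure Ω₂) [IsProbabilityMeasure P₂]
    (W : ℝ≥0 → Ω₂ → (Fin d → ℝ)) (hWm : ∀ t, Measurable (W t))
    (hWc : ∀ ω, Continuous fun t => W t ω)
    (hWf : ∀ (k : ℕ) (t : Fin k → ℝ≥0) (u : Fin k → Fin d → ℝ),
      ∫ ω, Complex.exp (Complex.I * ((∑ j, ∑ a, u j a * W (t j) ω a : ℝ) : ℂ)) ∂P₂ =
        Complex.exp (-((∑ j, ∑ l, min (t j : ℝ) (t l : ℝ) *
            (∑ a, ∑ b, u j a * S a b * u l b) : ℝ) : ℂ) / 2)) :
    ∃ (Ω' : Type) (mΩ' : MeasurableSpace Ω') (P' : Measure Ω') (_ : IsProbabilityMeasure P')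
      (Φ : Ω₂ → Ω') (W' : ℝ → Ω' → (Fin d → ℝ)), Measurable Φ ∧ P' = P₂.map Φ ∧
      IsBM S P' W' ∧ ∀ (t : ℝ≥0) (ω : Ω₂), W' t (Φ ω) = W t ω := by
  let Φ : Ω₂ → C(ℝ≥0, Fin d → ℝ) := fun ω => ⟨fun t => W t ω, hWc ω⟩
  let mC : MeasurableSpace C(ℝ≥0, Fin d → ℝ) :=
    MeasurableSpace.comap (fun (f : C(ℝ≥0, Fin d → ℝ)) (t : ℝ≥0) => f t) MeasurableSpace.pi
  have hΦ : Measurable Φ := by
    rw [measurable_comap_iff]
    exact measurable_pi_lambda _ hWm
  have hev : ∀ t : ℝ≥0, Measurable (fun f : C(ℝ≥0, Fin d → ℝ) => f t) := by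
    intro t
    exact (measurable_pi_apply t).comp
      (comap_measurable (fun (f : C(ℝ≥0, Fin d → ℝ)) (t : ℝ≥0) => f t))
  have hpr : IsProbabilityMeasure (P₂.map Φ) := Measure.isProbabilityMeasure_map hΦ.aemeasurable
  refine ⟨C(ℝ≥0, Fin d → ℝ), mC, P₂.map Φ, hpr, Φ, fun t f => f t.toNNReal, hΦ, rfl,
    ⟨fun t => hev _, fun f => f.continuous.comp continuous_real_toNNReal, ?_⟩, ?_⟩
  · intro k t u ht
    have hmeas : Measurable (fun f : C(ℝ≥0, Fin d → ℝ) =>
        Complex.exp (Complex.I * ((∑ j, ∑ a, u j a * f (t j).toNNReal a : ℝ) : ℂ))) := by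
      refine Complex.measurable_exp.comp (measurable_const.mul ?_)
      refine Complex.measurable_ofReal.comp ?_
      refine Finset.measurable_sum _ fun j _ => Finset.measurable_sum _ fun a _ => ?_
      exact measurable_const.mul ((measurable_pi_apply a).comp (hev _))
    rw [integral_map hΦ.aemeasurable hmeas.aestronglyMeasurable]
    have h1 := hWf k (fun j => (t j).toNNReal) u
    have h2 : ∀ j, (((t j).toNNReal : ℝ≥0) : ℝ) = t j := fun j => Real.coe_toNNReal _ (ht j)
    simp only [h2] at h1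
    exact h1
  · intro t ω
    show W (Real.toNNReal (t : ℝ)) ω = W t ω
    rw [Real.toNNReal_coe]

end Pool.Agent.Lib.H97I
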